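import Pool.Agent.Y837.SV.Cnt

set_option autoImplicit false
set_option linter.unusedSectionVars false

/-! # Counting members of a family of integer vectors in residue classes to several moduli -/

namespace Pool.Agent.N542.PT

open Finset
open Pool.Agent.H256R2.SC (crt_int)
open Pool.Agent.Y837.SV (red BB res res_mem_BB res_eq_iff BB_lt card_BB_le)

open scoped Classical

/-- the number of the members of a family whose reductions have the properties `Q i` -/
theorem count_eventA {ι α : Type} (m : ℕ) (S : Finset ι) (p : ι → ℕ)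
    (hp : ∀ i ∈ S, (p i).Prime) (hinj : ∀ i ∈ S, ∀ j ∈ S, i ≠ j → p i ≠ p j)
    (Q : ∀ i, (Fin m → ZMod (p i)) → Prop) (𝒜 : Finset α) (w : α → Fin m → ℤ) (N E : ℝ) (hE : 0 ≤ E)
    (hA : ∀ c : Fin m → ℤ,
      |((𝒜.filter (fun a => ∀ j, ((∏ i ∈ S, p i : ℕ) : ℤ) ∣ w a j - c j)).card : ℝ) -
      N / ((∏ i ∈ S, p i : ℕ) : ℝ) ^ m| ≤ E) :
    |((𝒜.filter (fun a => ∀ i ∈ S, Q i (red m (p i) (w a)))).card : ℝ) -
      N * ∏ i ∈ S, (((BB m (p i) (Q i)).card : ℝ) / (p i : ℝ) ^ m)| ≤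
      ((∏ i ∈ S, p i : ℕ) : ℝ) ^ m * E := by
  set q : ℕ := ∏ i ∈ S, p i with hq
  have hq0 : 0 < q := Finset.prod_pos fun i hi => (hp i hi).pos
  have hqR : (0 : ℝ) < q := by exact_mod_cast hq0
  have hcop : ∀ i ∈ S, ∀ j ∈ S, i ≠ j → IsCoprime ((p i : ℕ) : ℤ) ((p j : ℕ) : ℤ) :=
    fun i hi j hj hij => Nat.isCoprime_iff_coprime.mpr
      ((Nat.coprime_primes (hp i hi) (hp j hj)).2 (hinj i hi j hj hij))
  have hqdvd : ∀ y : ℤ, (∀ i ∈ S, (p i : ℤ) ∣ y) ↔ (q : ℤ) ∣ y := by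
    intro y
    constructor
    · intro h
      have : ((q : ℕ) : ℤ) = ∏ i ∈ S, ((p i : ℕ) : ℤ) := by rw [hq]; push_cast; rfl
      rw [this]
      exact Finset.prod_dvd_of_coprime (fun i hi j hj hij => hcop i hi j hj hij) h
    · intro h i hi
      refine dvd_trans ?_ h
      have : p i ∣ q := Finset.dvd_prod_of_mem _ hi
      exact_mod_cast this
  set F := 𝒜.filter (fun a => ∀ i ∈ S, Q i (red m (p i) (w a))) with hF
  set τ : α → (∀ i ∈ S, Fin m → ℕ) := fun a i _ => res m (p i) (w a) with hτ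
  have hmaps : ∀ x ∈ F, τ x ∈ S.pi (fun i => BB m (p i) (Q i)) := by
    intro x hx
    rw [hF, mem_filter] at hx
    rw [Finset.mem_pi]
    intro i hi
    exact (res_mem_BB (hp i hi).pos (Q i) (w x)).2 (hx.2 i hi)
  have hcard := Finset.card_eq_sum_card_fiberwise hmaps
  -- the classes
  have hc : ∀ b : (∀ i ∈ S, Fin m → ℕ), ∃ c : Fin m → ℤ, ∀ j, ∀ i (hi : i ∈ S),
      (p i : ℤ) ∣ c j - (b i hi j : ℤ) := by
    intro b
    have h1 : ∀ j, ∃ c : ℤ, ∀ i ∈ S, (p i : ℤ) ∣ c - (if h : i ∈ S then (b i h j : ℤ) else 0) :=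
      fun j => crt_int S (fun i => ((p i : ℕ) : ℤ)) hcop _
    choose c hc using h1
    refine ⟨c, fun j i hi => ?_⟩
    have := hc j i hi
    rwa [dif_pos hi] at this
  choose c hc using hc
  have hfib : ∀ b ∈ S.pi (fun i => BB m (p i) (Q i)), F.filter (fun x => τ x = b) =
      𝒜.filter (fun x => ∀ j, (q : ℤ) ∣ w x j - c b j) := by
    intro b hb
    rw [Finset.mem_pi] at hb
    ext x
    simp only [hF, Finset.mem_filter]
    have hres : τ x = b ↔ ∀ i (hi : i ∈ S), ∀ j, (p i : ℤ) ∣ w x j - (b i hi j : ℤ) := by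
      constructor
      · intro h i hi
        have h1 : res m (p i) (w x) = b i hi := by rw [← h]
        exact (res_eq_iff (hp i hi).pos (w x) (b i hi) (fun j => BB_lt (hb i hi) j)).1 h1
      · intro h
        funext i hi
        exact (res_eq_iff (hp i hi).pos (w x) (b i hi) (fun j => BB_lt (hb i hi) j)).2 (h i hi)
    constructor
    · rintro ⟨⟨h1, h2⟩, h3⟩
      refine ⟨h1, fun j => (hqdvd _).1 fun i hi => ?_⟩
      have h4 := dvd_sub (hres.1 h3 i hi j) (hc b j i hi)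
      have e : w x j - (b i hi j : ℤ) - (c b j - (b i hi j : ℤ)) = w x j - c b j := by ring
      rwa [e] at h4
    · rintro ⟨h0, h⟩
      have h3 : τ x = b := by
        rw [hres]
        intro i hi j
        have h4 := dvd_add ((hqdvd _).2 (h j) i hi) (hc b j i hi)
        have e : w x j - c b j + (c b j - (b i hi j : ℤ)) = w x j - (b i hi j : ℤ) := by ring
        rwa [e] at h4
      refine ⟨⟨h0, fun i hi => ?_⟩, h3⟩
      rw [← res_mem_BB (hp i hi).pos (Q i) (w x)]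
      have h4 : res m (p i) (w x) = b i hi := by rw [← h3]
      rw [h4]
      exact hb i hi
  have h1 : (F.card : ℝ) = ∑ b ∈ S.pi (fun i => BB m (p i) (Q i)),
      ((𝒜.filter (fun x => ∀ j, (q : ℤ) ∣ w x j - c b j)).card : ℝ) := by
    rw [hcard]
    push_cast
    refine Finset.sum_congr rfl fun b hb => ?_
    rw [hfib b hb]
  have h2 : N * ∏ i ∈ S, (((BB m (p i) (Q i)).card : ℝ) / (p i : ℝ) ^ m) =
      ∑ b ∈ S.pi (fun i => BB m (p i) (Q i)), N / (q : ℝ) ^ m := by
    rw [Finset.sum_const, Finset.card_pi, nsmul_eq_mul, Finset.prod_div_distrib,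
      Finset.prod_pow, hq]
    push_cast
    ring
  rw [h1, h2, ← Finset.sum_sub_distrib]
  refine (Finset.abs_sum_le_sum_abs _ _).trans ?_
  refine (Finset.sum_le_sum fun b _ => hA (c b)).trans ?_
  rw [Finset.sum_const, Finset.card_pi, nsmul_eq_mul]
  have h4 : ((∏ i ∈ S, (BB m (p i) (Q i)).card : ℕ) : ℝ) ≤ (q : ℝ) ^ m := by
    rw [hq]
    have : ∏ i ∈ S, (BB m (p i) (Q i)).card ≤ (∏ i ∈ S, p i) ^ m := by
      rw [← Finset.prod_pow]
      exact Finset.prod_le_prod' fun i _ => card_BB_le _ _ _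
    exact_mod_cast this
  exact mul_le_mul_of_nonneg_right h4 hE

end Pool.Agent.N542.PT
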