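import Pool.Agent.N542.PT.Real
import Pool.Agent.Y837.SV.WtOne3
import Pool.Agent.Y837.SV.Three2

set_option autoImplicit false
set_option linter.unusedSectionVars false
set_option linter.unusedVariables false

/-! # The local hypothesis, and two classes of families which satisfy it -/

namespace Pool.Agent.N542.PT

open Finset Filter MvPolynomial
open Pool.Agent.Y837.SV (avoid weight_U2 weight_pair three_U rp_nonconst nonconst_B)

open scoped Classical

/-- The local hypothesis: modulo the large primes `p` the values of `F j` outside the finite set `E j` of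
integers are taken with the expected frequency up to a factor `1 + O(p ^ (-δ))`, and a pair of values
of `F i` and `F j`, `i ≠ j`, with the expected frequency up to a constant factor. -/
def Balanced {ι : Type} {n : ℕ} (F : ι → MvPolynomial (Fin n) ℤ) (E : ι → Finset ℤ) : Prop :=
  ∃ (B : ℕ) (C δ : ℝ), 0 < δ ∧ ∀ p : ℕ, p.Prime → B < p →
    (∀ j, ∀ r : ZMod p, (∀ v ∈ E j, r ≠ (v : ZMod p)) →
      |(p : ℝ) * (Nat.card {x : Fin n → ZMod p // aeval x (F j) = r} : ℝ) - (p : ℝ) ^ n| ≤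
        C * (p : ℝ) ^ n * (p : ℝ) ^ (-δ)) ∧
    ∀ i j, i ≠ j → ∀ r s : ZMod p, (∀ v ∈ E i, r ≠ (v : ZMod p)) → (∀ v ∈ E j, s ≠ (v : ZMod p)) →
      (p : ℝ) ^ 2 * (Nat.card {x : Fin n → ZMod p // aeval x (F i) = r ∧ aeval x (F j) = s} : ℝ) ≤
        C * (p : ℝ) ^ n

/-- a nonconstant polynomial has zeros modulo infinitely many primes (from `Pool.Agent.R433.WF.schur`) -/
theorem schur {d : ℕ} (G : MvPolynomial (Fin d) ℤ) (hG : ∀ k, G ≠ MvPolynomial.C k) (B : ℕ) :
    ∃ p : ℕ, p.Prime ∧ B < p ∧ ∃ x : Fin d → ℤ, (p : ℤ) ∣ eval x G := by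
  by_cases hz : ∃ u, eval u G = 0
  · obtain ⟨u, hu⟩ := hz
    obtain ⟨p, hp1, hp2⟩ := Nat.exists_infinite_primes (B + 1)
    exact ⟨p, hp2, by omega, u, by rw [hu]; exact dvd_zero _⟩
  push Not at hz
  obtain ⟨g, hg⟩ : ∃ g, g = eval 0 G := ⟨_, rfl⟩
  have hg0 : g ≠ 0 := by rw [hg]; exact hz 0
  obtain ⟨k, hk⟩ : ∃ k : ℤ, k = g * ((B + 1).factorial : ℤ) := ⟨_, rfl⟩
  have hk0 : k ≠ 0 := by
    rw [hk]
    exact mul_ne_zero hg0 (by exact_mod_cast (Nat.factorial_pos _).ne')
  obtain ⟨y, hy1, hy2⟩ : ∃ y : Fin d → ℤ, eval (fun i => k * y i) G ≠ g ∧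
      eval (fun i => k * y i) G ≠ -g := by
    by_contra hcon
    push Not at hcon
    have h1 : (G - MvPolynomial.C g) * (G + MvPolynomial.C g) = 0 := by
      refine MvPolynomial.funext_set (fun _ : Fin d => Set.range fun y : ℤ => k * y)
        (fun _ => Set.infinite_range_of_injective (mul_right_injective₀ hk0)) ?_
      intro x hx
      choose y hy using fun i => hx i (Set.mem_univ i)
      have e : x = fun i => k * y i := funext fun i => (hy i).symm
      rw [map_mul, map_sub, map_add, eval_C, map_zero, e]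
      by_cases h2 : eval (fun i => k * y i) G = g
      · rw [h2, sub_self, zero_mul]
      · rw [hcon y h2, neg_add_cancel, mul_zero]
    rcases mul_eq_zero.1 h1 with h2 | h2
    · exact hG _ (sub_eq_zero.1 h2)
    · exact hG (-g) (by rw [map_neg]; exact eq_neg_of_add_eq_zero_left h2)
  have hdvd : k ∣ eval (fun i => k * y i) G - g := by
    rw [← Int.natAbs_dvd, ← ZMod.intCast_zmod_eq_zero_iff_dvd _ k.natAbs]
    have h1 : ∀ x : Fin d → ℤ, ((eval x G : ℤ) : ZMod k.natAbs) =
        aeval (fun i => ((x i : ℤ) : ZMod k.natAbs)) G := by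
      intro x
      change Int.castRingHom (ZMod k.natAbs) (eval x G) = _
      rw [MvPolynomial.aeval_def, MvPolynomial.eval, MvPolynomial.coe_eval₂Hom,
        MvPolynomial.hom_eval₂]
      congr 1
    have hkz : ((k : ℤ) : ZMod k.natAbs) = 0 := by
      rw [ZMod.intCast_zmod_eq_zero_iff_dvd]
      exact Int.natAbs_dvd.2 dvd_rfl
    rw [Int.cast_sub, hg, h1, h1, sub_eq_zero]
    congr 1
    ext i
    push_cast
    rw [hkz]
    simp
  obtain ⟨t, ht⟩ := hdvd
  have hv : eval (fun i => k * y i) G = g * (1 + ((B + 1).factorial : ℤ) * t) := by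
    have : eval (fun i => k * y i) G = g + k * t := by linarith
    rw [this, hk]
    ring
  set u : ℤ := 1 + ((B + 1).factorial : ℤ) * t with hu
  have hu1 : u.natAbs ≠ 1 := by
    intro h
    rcases Int.natAbs_eq u with h' | h'
    · rw [h, Nat.cast_one] at h'
      exact hy1 (by rw [hv, h', mul_one])
    · rw [h, Nat.cast_one] at h'
      exact hy2 (by rw [hv, h']; ring)
  refine ⟨u.natAbs.minFac, Nat.minFac_prime hu1, ?_, fun i => k * y i, ?_⟩
  · by_contra hcon
    have hp := Nat.minFac_prime hu1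
    have h1 : u.natAbs.minFac ∣ (B + 1).factorial := Nat.dvd_factorial hp.pos (by omega)
    have h2 : ((u.natAbs.minFac : ℕ) : ℤ) ∣ u :=
      Int.natCast_dvd.2 (Nat.minFac_dvd _)
    have h3 : ((u.natAbs.minFac : ℕ) : ℤ) ∣ ((B + 1).factorial : ℤ) * t :=
      (Int.natCast_dvd_natCast.2 h1).mul_right _
    have h4 : ((u.natAbs.minFac : ℕ) : ℤ) ∣ 1 := by
      have h5 := dvd_sub h2 h3
      rw [hu] at h5
      simpa using h5
    have h6 := Int.natAbs_dvd_natAbs.2 h4
    rw [Int.natAbs_natCast, Int.natAbs_one, Nat.dvd_one] at h6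
    exact hp.one_lt.ne' h6
  · rw [hv]
    exact (Int.natCast_dvd.2 (Nat.minFac_dvd _)).mul_left _

/-- the criterion for balanced families -/
theorem crit_balanced {ι : Type} [Fintype ι] {n : ℕ} (F : ι → MvPolynomial (Fin n) ℤ)
    (E : ι → Finset ℤ) (hF : ∀ j, ∀ k : ℤ, F j ≠ MvPolynomial.C k) (hB : Balanced F E) :
    Crit n F := by
  obtain ⟨B, C, δ, hδ, h⟩ := hB
  refine crit3A n F hF E ?_ B C δ hδ (fun p hp hBp => (h p hp hBp).1) (fun p hp hBp => (h p hp hBp).2)
  intro j r _ B'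
  obtain ⟨p, hp, hBp, x, hx⟩ := schur (F j - MvPolynomial.C r) (fun k hk => by
    apply hF j (k + r)
    rw [map_add, ← hk, sub_add_cancel]) B'
  refine ⟨p, hp, hBp, x, ?_⟩
  rw [map_sub, eval_C] at hx
  exact hx

/-- polynomials of weight one -/
theorem balanced_weight {ι : Type} [Fintype ι] {d : ℕ} (F : ι → MvPolynomial (Fin d) ℤ)
    (hF0 : ∀ j, F j ≠ 0)
    (hw : ∀ j, ∃ w : Fin d → ℤ, ∀ e ∈ (F j).support, ∑ i, w i * (e i : ℤ) = 1)
    (hpair : ∀ i j, i ≠ j → ∃ w : Fin d → ℤ, ∃ D : ℤ, D ≠ 0 ∧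
      (∀ e ∈ (F i).support, ∑ l, w l * (e l : ℤ) = D) ∧ ∀ e ∈ (F j).support, ∑ l, w l * (e l : ℤ) = 0) :
    Balanced F (fun _ => {0}) ∧ ∀ j, ∀ k : ℤ, F j ≠ MvPolynomial.C k := by
  choose w hw using hw
  have hpair' : ∀ i j, ∃ w : Fin d → ℤ, ∃ D : ℤ, i ≠ j → (D ≠ 0 ∧
      (∀ e ∈ (F i).support, ∑ l, w l * (e l : ℤ) = D) ∧
      ∀ e ∈ (F j).support, ∑ l, w l * (e l : ℤ) = 0) := by
    intro i j
    by_cases h : i = j
    · exact ⟨0, 0, fun h' => absurd h h'⟩
    · obtain ⟨w, D, h1⟩ := hpair i j h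
      exact ⟨w, D, fun _ => h1⟩
  choose v D hvD using hpair'
  obtain ⟨K, hK⟩ : ∃ K : ℝ, K = ∑ j : ι, (((F j).totalDegree : ℝ) + 2) +
      ∑ i : ι, ∑ j : ι, 4 * (((D i j).natAbs * (D j i).natAbs : ℕ) : ℝ) := ⟨_, rfl⟩
  have hs1 : 0 ≤ ∑ j : ι, (((F j).totalDegree : ℝ) + 2) := Finset.sum_nonneg fun j _ => by positivity
  have hs2 : 0 ≤ ∑ i : ι, ∑ j : ι, 4 * (((D i j).natAbs * (D j i).natAbs : ℕ) : ℝ) :=
    Finset.sum_nonneg fun i _ => Finset.sum_nonneg fun j _ => by positivity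
  have hcc : ∀ j, constantCoeff (F j) = 0 := by
    intro j
    rw [constantCoeff_eq]
    by_contra h
    have h1 : (0 : Fin d →₀ ℕ) ∈ (F j).support := mem_support_iff.2 h
    have h2 := hw j 0 h1
    simp at h2
  obtain ⟨u, hu⟩ := avoid d F (fun _ => 0) (fun j => by rw [map_zero]; exact hF0 j)
  obtain ⟨B₀, hB₀⟩ : ∃ B₀ : ℕ, B₀ = ∑ j : ι, (eval u (F j)).natAbs := ⟨_, rfl⟩
  have hnd : ∀ p : ℕ, B₀ < p → ∀ j, ¬ (p : ℤ) ∣ eval u (F j) := by
    intro p hp j hdvd
    have h1 := Int.natAbs_dvd_natAbs.2 hdvd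
    rw [Int.natAbs_natCast] at h1
    have h2 : 0 < (eval u (F j)).natAbs := Int.natAbs_pos.2 (hu j)
    have h3 := Nat.le_of_dvd h2 h1
    have h4 : (eval u (F j)).natAbs ≤ ∑ j : ι, (eval u (F j)).natAbs :=
      Finset.single_le_sum (f := fun j : ι => (eval u (F j)).natAbs) (fun _ _ => Nat.zero_le _) (mem_univ j)
    omega
  refine ⟨⟨B₀, K, 1 / 2, by norm_num, fun p hp hBp => ⟨?_, ?_⟩⟩, ?_⟩
  · intro j r hr
    have : Fact p.Prime := ⟨hp⟩
    have hp0 : (0 : ℝ) < p := by exact_mod_cast hp.pos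
    have hp1 : (1 : ℝ) ≤ p := by exact_mod_cast hp.one_lt.le
    have hr' : r ≠ 0 := by
      intro h
      refine hr 0 (mem_singleton_self _) ?_
      rw [h]
      simp
    have h1 := weight_U2 (p := p) (F j) (w j) (hw j) u (hnd p hBp j) r hr'
    rw [Nat.card_eq_fintype_card, Fintype.card_subtype]
    have h2 : |(p : ℝ) * ((univ.filter (fun x : Fin d → ZMod p => aeval x (F j) = r)).card : ℝ) -
        (p : ℝ) ^ d| ≤ (((F j).totalDegree : ℝ) + 2) * (p : ℝ) ^ d / p := by
      rw [le_div_iff₀ hp0]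
      exact h1
    refine le_trans ?_ (h2.trans ?_)
    · exact le_rfl
    · have h3 : (1 : ℝ) / p ≤ (p : ℝ) ^ (-(1 / 2) : ℝ) := by
        have : (1 : ℝ) / p = (p : ℝ) ^ (-1 : ℝ) := by
          rw [Real.rpow_neg_one, one_div]
        rw [this]
        exact Real.rpow_le_rpow_of_exponent_le hp1 (by norm_num)
      have h4 : ((F j).totalDegree : ℝ) + 2 ≤ K := by
        have h5 : ((F j).totalDegree : ℝ) + 2 ≤ ∑ j : ι, (((F j).totalDegree : ℝ) + 2) :=
          Finset.single_le_sum (f := fun j : ι => (((F j).totalDegree : ℝ) + 2))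
          (fun _ _ => by positivity) (mem_univ j)
        rw [hK]
        linarith
      calc (((F j).totalDegree : ℝ) + 2) * (p : ℝ) ^ d / p =
            (((F j).totalDegree : ℝ) + 2) * (p : ℝ) ^ d * (1 / p) := by ring
        _ ≤ K * (p : ℝ) ^ d * (p : ℝ) ^ (-(1 / 2) : ℝ) := by
            have hK0 : 0 ≤ K := le_trans (by positivity) h4
            apply mul_le_mul _ h3 (by positivity) (by positivity)
            exact mul_le_mul_of_nonneg_right h4 (by positivity)
  · intro i j hij r s hr hs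
    have : Fact p.Prime := ⟨hp⟩
    have hr' : r ≠ 0 := by
      intro h
      refine hr 0 (mem_singleton_self _) ?_
      rw [h]
      simp
    have hs' : s ≠ 0 := by
      intro h
      refine hs 0 (mem_singleton_self _) ?_
      rw [h]
      simp
    obtain ⟨a1, a2, a3⟩ := hvD i j hij
    obtain ⟨b1, b2, b3⟩ := hvD j i hij.symm
    have h1 := weight_pair (p := p) (F i) (F j) (v i j) (v j i) (D i j) (D j i) a1 b1 a2 a3 b2 b3 r s hr' hs'
    rw [Nat.card_eq_fintype_card, Fintype.card_subtype]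
    refine le_trans ?_ (h1.trans ?_)
    · exact le_rfl
    · apply mul_le_mul_of_nonneg_right _ (by positivity)
      have a4 := Finset.single_le_sum (f := fun j : ι => 4 * (((D i j).natAbs * (D j i).natAbs : ℕ) : ℝ))
        (fun _ _ => by positivity) (mem_univ j)
      have a5 := Finset.single_le_sum (f := fun i : ι => ∑ j : ι,
        4 * (((D i j).natAbs * (D j i).natAbs : ℕ) : ℝ))
        (fun i _ => Finset.sum_nonneg fun j _ => by positivity) (mem_univ i)
      have a6 := a4.trans a5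
      rw [hK]
      linarith
  · intro j c hc
    apply hF0 j
    have h1 := hcc j
    rw [hc, constantCoeff_C] at h1
    rw [hc, h1, map_zero]

/-- sums of three polynomials in disjoint sets of variables -/
theorem balanced_three {a b c : ℕ} (A : MvPolynomial (Fin a) ℤ) (B : MvPolynomial (Fin b) ℤ)
    (C : MvPolynomial (Fin c) ℤ) (hA : ∀ k, A ≠ MvPolynomial.C k) (hB : ∀ k, B ≠ MvPolynomial.C k)
    (hC : ∀ k, C ≠ MvPolynomial.C k) :
    Balanced (fun _ : Unit => rename (Fin.castAdd (b + c)) A +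
        rename (fun i => Fin.natAdd a (Fin.castAdd c i)) B +
        rename (fun i => Fin.natAdd a (Fin.natAdd b i)) C) (fun _ => ∅) ∧
      ∀ k : ℤ, rename (Fin.castAdd (b + c)) A + rename (fun i => Fin.natAdd a (Fin.castAdd c i)) B +
        rename (fun i => Fin.natAdd a (Fin.natAdd b i)) C ≠ MvPolynomial.C k := by
  obtain ⟨wA, hwA, hA2⟩ := nonconst_B A hA
  obtain ⟨wB, hwB, hB2⟩ := nonconst_B B hB
  obtain ⟨wC, hwC, hC2⟩ := nonconst_B C hC
  obtain ⟨D, hD⟩ : ∃ D : ℕ, D = A.totalDegree + B.totalDegree + C.totalDegree + 1 := ⟨_, rfl⟩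
  obtain ⟨B₀, hB₀⟩ : ∃ B₀ : ℕ, B₀ = (MvPolynomial.eval wA A - MvPolynomial.eval 0 A).natAbs +
    (MvPolynomial.eval wB B - MvPolynomial.eval 0 B).natAbs +
    (MvPolynomial.eval wC C - MvPolynomial.eval 0 C).natAbs + D := ⟨_, rfl⟩
  constructor
  · refine ⟨B₀, 2 * (D : ℝ) * (D + 2), (1 / 2 : ℝ) ^ D, by positivity, fun p hp hBp => ⟨?_, ?_⟩⟩
    · intro _ r _
      have : Fact p.Prime := ⟨hp⟩
      have h1 := three_U (D := D) (by omega) (by omega) A B C (by omega) (by omega) (by omega)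
        (rp_nonconst A wA 0 (hA2 p (by omega))) (rp_nonconst B wB 0 (hB2 p (by omega)))
        (rp_nonconst C wC 0 (hC2 p (by omega))) r
      simp only [map_add, aeval_rename]
      exact h1
    · intro i j hij
      exact absurd (Subsingleton.elim i j) hij
  · intro k hk
    have h1 : ∀ x : Fin a → ℤ, MvPolynomial.eval x A + MvPolynomial.eval 0 B +
        MvPolynomial.eval 0 C = k := by
      intro x
      have h2 := congrArg (MvPolynomial.eval (Fin.append x (0 : Fin (b + c) → ℤ))) hk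
      rw [map_add, map_add, eval_rename, eval_rename, eval_rename, eval_C] at h2
      have e1 : (Fin.append x (0 : Fin (b + c) → ℤ)) ∘ (Fin.castAdd (b + c)) = x := by
        funext i
        simp
      have e2 : (Fin.append x (0 : Fin (b + c) → ℤ)) ∘ (fun i => Fin.natAdd a (Fin.castAdd c i)) = 0 := by
        funext i
        simp
      have e3 : (Fin.append x (0 : Fin (b + c) → ℤ)) ∘ (fun i => Fin.natAdd a (Fin.natAdd b i)) = 0 := by
        funext i
        simp
      rw [e1, e2, e3] at h2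
      exact h2
    have h3 := h1 wA
    have h4 := h1 0
    exact hwA (by linarith)

end Pool.Agent.N542.PT
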