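import Pool.Agent.N542.PT.Real
import Pool.Agent.N542.PC.Shift
import Pool.Agent.TH915.PW.APCount

set_option autoImplicit false
set_option maxHeartbeats 4000000

/-! Polynomials at the integral parts of smooth functions of a prime number. -/

namespace Pool.Agent.N542.PT

open Finset Filter Topology
open Pool.Agent.H469R2.NK (e norm_e e_add)
open Pool.Agent.N542.PP (SV)
open Pool.Agent.N542.PC (exp_shifts exp_primes' sv_shift)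
open Pool.Agent.TH915.PW (card_primes)
open Pool.Agent.W147.PS (ff ev_pow)

/-- exponential sums over primes for the functions `α_{φ k} f_{φ k}(t + σ k)`, incongruent indices -/
theorem exp_coords1 {r n : ℕ} (hr : 1 ≤ r) (c u : Fin r → ℝ) (F : Fin r → ℕ → ℝ → ℝ)
    (hSV : ∀ j, SV (c j) (F j)) (hcn : ∀ j, ∀ n : ℕ, c j ≠ n)
    (φ : Fin n → Fin r) (σ : Fin n → ℤ) (hφσ : ∀ k l, φ k = φ l → σ k = σ l → k = l)
    (hcard : ∀ j, ((univ.filter (fun k => φ k = j)).card : ℝ) < c j + u j + 1)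
    (hinc : ∀ i j, i ≠ j → ∀ n : ℤ, (c i + u i) - (c j + u j) ≠ n)
    (D : ℕ) (ε : ℝ) (hε : 0 < ε) (hε1 : ε ≤ 1 / 2) :
    ∃ ρ δ : ℝ, 0 < ρ ∧ ρ ≤ 1 / 8 ∧ 0 < δ ∧ ∀ᶠ Z : ℝ in atTop, ∀ (d b : ℕ) (α : Fin r → ℝ)
      (h : Fin n → ℤ) (q : ℕ) (P : Polynomial ℝ), 0 < d →
      (∀ j, Z ^ (u j - δ) ≤ |α j| ∧ |α j| ≤ Z ^ (u j + δ)) → 1 ≤ q → (q : ℝ) ≤ Z ^ δ →
      h ≠ 0 → (∀ k, |(h k : ℝ)| ≤ Z ^ δ) → P.natDegree ≤ D → ⌊Z⌋₊ < ⌊(1 + ε) * Z⌋₊ →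
      ‖∑ p ∈ (Ioc ⌊Z⌋₊ ⌊(1 + ε) * Z⌋₊).filter (fun p => p.Prime ∧ p ≡ b [MOD d]),
        e (∑ k, (h k : ℝ) * α (φ k) / q * F (φ k) 0 ((p : ℝ) + σ k) + P.eval (p : ℝ))‖ ≤
        2 * Z ^ (1 - ρ) := by
  classical
  obtain ⟨S, hSdef⟩ : ∃ S : Fin r → Finset ℤ,
    S = fun j => (univ.filter (fun k => φ k = j)).image σ := ⟨_, rfl⟩
  have hSmem : ∀ j s, s ∈ S j ↔ ∃ k, φ k = j ∧ σ k = s := by
    intro j s
    rw [hSdef]
    simp only [mem_image, mem_filter, mem_univ, true_and]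
  have hS : ∀ j, ((S j).card : ℝ) < c j + u j + 1 := by
    intro j
    refine lt_of_le_of_lt ?_ (hcard j)
    rw [hSdef]
    exact_mod_cast card_image_le
  obtain ⟨ρ, δ, hρ0, hρ1, hδ, hexp⟩ := exp_shifts hr c u F hSV hcn hinc S hS D ε hε hε1
  refine ⟨ρ, δ, hρ0, hρ1, hδ, ?_⟩
  filter_upwards [hexp] with Z hex
  intro d b α h q P hd hα hq hqZ hh hhZ hPD hm01
  set h' : Fin r → ℤ → ℤ := fun j s => ∑ k ∈ univ.filter (fun k => φ k = j ∧ σ k = s), h k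
    with hh'
  have h'eq : ∀ k, h' (φ k) (σ k) = h k := by
    intro k
    rw [hh']
    simp only
    have : univ.filter (fun l => φ l = φ k ∧ σ l = σ k) = {k} := by
      ext l
      rw [mem_filter, mem_singleton]
      constructor
      · rintro ⟨-, h1, h2⟩
        exact hφσ l k h1 h2
      · rintro rfl
        exact ⟨mem_univ _, rfl, rfl⟩
    rw [this, sum_singleton]
  have h1 := hex d b α h' q P hd hα hq hqZ (by
      obtain ⟨k, hk⟩ : ∃ k, h k ≠ 0 := by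
        by_contra hcon
        push Not at hcon
        exact hh (funext hcon)
      refine ⟨φ k, σ k, (hSmem _ _).2 ⟨k, rfl, rfl⟩, ?_⟩
      rw [h'eq]
      exact hk) (by
      intro j s hs
      obtain ⟨k, rfl, rfl⟩ := (hSmem _ _).1 hs
      rw [h'eq]
      exact hhZ _) hPD hm01
  refine le_trans (le_of_eq ?_) h1
  congr 1
  refine sum_congr rfl fun p _ => ?_
  congr 2
  rw [← Finset.sum_fiberwise (s := univ) (g := φ)]
  refine sum_congr rfl fun j _ => ?_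
  rw [← Finset.sum_fiberwise_of_maps_to (s := univ.filter (fun k => φ k = j)) (t := S j) (g := σ)
    (fun k hk => (hSmem _ _).2 ⟨k, (mem_filter.1 hk).2, rfl⟩)]
  refine sum_congr rfl fun s _ => ?_
  rw [hh']
  simp only
  rw [filter_filter]
  push_cast
  rw [sum_mul, sum_div, sum_mul]
  refine sum_congr rfl fun k hk => ?_
  rw [mem_filter] at hk
  rw [hk.2.1, hk.2.2]

/-- exponential sums over primes for the functions `α_{φ k} f_{φ k}(t + σ k)`, `φ` injective -/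
theorem exp_coords2 {r n : ℕ} (hn : 1 ≤ n) (c u : Fin r → ℝ) (F : Fin r → ℕ → ℝ → ℝ)
    (hSV : ∀ j, SV (c j) (F j)) (hcn : ∀ j, ∀ n : ℕ, c j ≠ n)
    (φ : Fin n → Fin r) (σ : Fin n → ℤ) (hφ : Function.Injective φ)
    (hcard : ∀ j, ((univ.filter (fun k => φ k = j)).card : ℝ) < c j + u j + 1)
    (hinj : ∀ i j, i ≠ j → c i + u i ≠ c j + u j)
    (D : ℕ) (ε : ℝ) (hε : 0 < ε) (hε1 : ε ≤ 1 / 2) :
    ∃ ρ δ : ℝ, 0 < ρ ∧ ρ ≤ 1 / 8 ∧ 0 < δ ∧ ∀ᶠ Z : ℝ in atTop, ∀ (d b : ℕ) (α : Fin r → ℝ)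
      (h : Fin n → ℤ) (q : ℕ) (P : Polynomial ℝ), 0 < d →
      (∀ j, Z ^ (u j - δ) ≤ |α j| ∧ |α j| ≤ Z ^ (u j + δ)) → 1 ≤ q → (q : ℝ) ≤ Z ^ δ →
      h ≠ 0 → (∀ k, |(h k : ℝ)| ≤ Z ^ δ) → P.natDegree ≤ D → ⌊Z⌋₊ < ⌊(1 + ε) * Z⌋₊ →
      ‖∑ p ∈ (Ioc ⌊Z⌋₊ ⌊(1 + ε) * Z⌋₊).filter (fun p => p.Prime ∧ p ≡ b [MOD d]),
        e (∑ k, (h k : ℝ) * α (φ k) / q * F (φ k) 0 ((p : ℝ) + σ k) + P.eval (p : ℝ))‖ ≤
        2 * Z ^ (1 - ρ) := by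
  classical
  obtain ⟨ρ, δ, hρ0, hρ1, hδ, hexp⟩ := exp_primes' hn (fun k => c (φ k)) (fun k => u (φ k))
    (fun k j t => F (φ k) j (t + σ k)) (fun k => sv_shift (hSV (φ k)) (σ k))
    (fun k => hcn (φ k)) (by
      intro k l hkl
      by_contra hne
      exact hinj (φ k) (φ l) (fun h => hne (hφ h)) hkl) D ε hε hε1
  refine ⟨ρ, δ, hρ0, hρ1, hδ, ?_⟩
  filter_upwards [hexp] with Z hex
  intro d b α h q P hd hα hq hqZ hh hhZ hPD hm01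
  exact hex d b (fun k => α (φ k)) h q P hd (fun k => hα (φ k)) hq hqZ (by
      obtain ⟨k, hk⟩ : ∃ k, h k ≠ 0 := by
        by_contra hcon
        push Not at hcon
        exact hh (funext hcon)
      refine ⟨k, hk, ?_⟩
      have h1 : (1 : ℝ) ≤ ((univ.filter (fun l => φ l = φ k)).card : ℝ) := by
        have : 0 < (univ.filter (fun l => φ l = φ k)).card :=
          Finset.card_pos.2 ⟨k, mem_filter.2 ⟨mem_univ _, rfl⟩⟩
        exact_mod_cast this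
      have h2 := hcard (φ k)
      linarith) hhZ hPD hm01

/-- Either the indices are incongruent modulo one, or they are distinct and every function is used at
most once. -/
def Spread {r n : ℕ} (v : Fin r → ℝ) (φ : Fin n → Fin r) : Prop :=
  (∀ i j, i ≠ j → ∀ m : ℤ, v i - v j ≠ m) ∨
    (Function.Injective φ ∧ ∀ i j, i ≠ j → v i ≠ v j)

theorem exp_coords {r n : ℕ} (hn : 1 ≤ n) (c u : Fin r → ℝ) (F : Fin r → ℕ → ℝ → ℝ)
    (hSV : ∀ j, SV (c j) (F j)) (hcn : ∀ j, ∀ n : ℕ, c j ≠ n)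
    (φ : Fin n → Fin r) (σ : Fin n → ℤ) (hφσ : ∀ k l, φ k = φ l → σ k = σ l → k = l)
    (hcard : ∀ j, ((univ.filter (fun k => φ k = j)).card : ℝ) < c j + u j + 1)
    (hsp : Spread (fun j => c j + u j) φ)
    (D : ℕ) (ε : ℝ) (hε : 0 < ε) (hε1 : ε ≤ 1 / 2) :
    ∃ ρ δ : ℝ, 0 < ρ ∧ ρ ≤ 1 / 8 ∧ 0 < δ ∧ ∀ᶠ Z : ℝ in atTop, ∀ (d b : ℕ) (α : Fin r → ℝ)
      (h : Fin n → ℤ) (q : ℕ) (P : Polynomial ℝ), 0 < d →
      (∀ j, Z ^ (u j - δ) ≤ |α j| ∧ |α j| ≤ Z ^ (u j + δ)) → 1 ≤ q → (q : ℝ) ≤ Z ^ δ →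
      h ≠ 0 → (∀ k, |(h k : ℝ)| ≤ Z ^ δ) → P.natDegree ≤ D → ⌊Z⌋₊ < ⌊(1 + ε) * Z⌋₊ →
      ‖∑ p ∈ (Ioc ⌊Z⌋₊ ⌊(1 + ε) * Z⌋₊).filter (fun p => p.Prime ∧ p ≡ b [MOD d]),
        e (∑ k, (h k : ℝ) * α (φ k) / q * F (φ k) 0 ((p : ℝ) + σ k) + P.eval (p : ℝ))‖ ≤
        2 * Z ^ (1 - ρ) := by
  have hr : 1 ≤ r := by
    have := (φ ⟨0, hn⟩).isLt
    omega
  rcases hsp with hsp | ⟨hφ, hinj⟩
  · exact exp_coords1 hr c u F hSV hcn φ σ hφσ hcard hsp D ε hε hε1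
  · exact exp_coords2 hn c u F hSV hcn φ σ hφ hcard hinj D ε hε hε1

theorem transfer {r n : ℕ} (hn : 1 ≤ n) (c u : Fin r → ℝ) (F : Fin r → ℕ → ℝ → ℝ)
    (hSV : ∀ j, SV (c j) (F j)) (hcn : ∀ j, ∀ n : ℕ, c j ≠ n)
    (φ : Fin n → Fin r) (σ : Fin n → ℤ) (hφσ : ∀ k l, φ k = φ l → σ k = σ l → k = l)
    (hcard : ∀ j, ((univ.filter (fun k => φ k = j)).card : ℝ) < c j + u j + 1)
    (hsp : Spread (fun j => c j + u j) φ)
    {ι : Type} (Φ : ι → MvPolynomial (Fin n) ℤ) (hΦ : Crit n Φ)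
    (D d b : ℕ) (hd : 0 < d) (hb : b.Coprime d) (ε : ℝ) (hε : 0 < ε) (hε1 : ε ≤ 1 / 2) :
    ∃ κ δ : ℝ, 0 < κ ∧ 0 < δ ∧ ∀ᶠ Z : ℝ in atTop, ∀ (α : Fin r → ℝ) (P : Fin n → Polynomial ℝ),
      (∀ j, Z ^ (u j - δ) ≤ |α j| ∧ |α j| ≤ Z ^ (u j + δ)) → (∀ k, (P k).natDegree ≤ D) →
      ∃ G : Finset ℕ, Z ^ (1 - ε) ≤ (G.card : ℝ) ∧ ∀ p ∈ G, p.Prime ∧ p ≡ b [MOD d] ∧
        Z < p ∧ (p : ℝ) ≤ (1 + ε) * Z ∧
        Good Φ (κ * ff Z) (Z ^ ε)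
          (fun k => ⌊α (φ k) * F (φ k) 0 ((p : ℝ) + σ k) + (P k).eval (p : ℝ)⌋) := by
  classical
  obtain ⟨ρ, δ, hρ0, hρ1, hδ, hexp⟩ := exp_coords hn c u F hSV hcn φ σ hφσ hcard hsp D ε hε hε1
  set η : ℝ := min (min (ρ / 8) δ) (min (ε / 8) (1 / 8)) with hη
  have hη0 : 0 < η := lt_min (lt_min (by positivity) hδ) (lt_min (by positivity) (by norm_num))
  have hηρ : η ≤ ρ / 8 := (min_le_left _ _).trans (min_le_left _ _)
  have hηδ : η ≤ δ := (min_le_left _ _).trans (min_le_right _ _)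
  have hηε : η ≤ ε / 8 := (min_le_right _ _).trans (min_le_left _ _)
  set τ : ℝ := min (ρ / 8) (ε / 8) with hτ
  have hτ0 : 0 < τ := lt_min (by positivity) (by positivity)
  have hτ1 : τ ≤ ρ / 8 := min_le_left _ _
  have hτ2 : τ ≤ ε / 8 := min_le_right _ _
  obtain ⟨κ, hκ, hmany⟩ := many n hn Φ hΦ η hη0 (by linarith)
  refine ⟨κ, δ, hκ, hδ, ?_⟩
  filter_upwards [hexp, hmany, card_primes d hd b hb ε τ hε (by linarith) hτ0,
    eventually_ge_atTop (4 : ℝ), ev_pow (1 - ρ) (1 - τ - η) 2 (by linarith),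
    ev_pow (1 - ε) (1 - τ - η) 1 (by linarith)]
    with Z hex hmany hcard hZ4 hp1 hp3
  intro α P hα hPD
  have hZ0 : 0 < Z := by linarith
  have hZ1 : 1 ≤ Z := by linarith
  set Q : Finset ℕ := (Ioc ⌊Z⌋₊ ⌊(1 + ε) * Z⌋₊).filter (fun p => p.Prime ∧ p ≡ b [MOD d]) with hQ
  have hQpos : (0 : ℝ) < Q.card := lt_of_lt_of_le (by positivity) hcard
  have hQne : Q.Nonempty := by
    rw [← Finset.card_pos]
    exact_mod_cast hQpos
  have hQmem : ∀ p ∈ Q, p.Prime ∧ p ≡ b [MOD d] ∧ Z < p ∧ (p : ℝ) ≤ (1 + ε) * Z := by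
    intro p hp
    rw [hQ, Finset.mem_filter, Finset.mem_Ioc] at hp
    refine ⟨hp.2.1, hp.2.2, ?_, ?_⟩
    · exact (Nat.floor_lt hZ0.le).mp hp.1.1
    · have h1 : (p : ℝ) ≤ (⌊(1 + ε) * Z⌋₊ : ℕ) := by exact_mod_cast hp.1.2
      exact h1.trans (Nat.floor_le (by positivity))
  have hm01 : ⌊Z⌋₊ < ⌊(1 + ε) * Z⌋₊ := by
    obtain ⟨p, hp⟩ := hQne
    rw [hQ, Finset.mem_filter, Finset.mem_Ioc] at hp
    omega
  have hQZ : Z ^ (1 - τ - η) ≤ (Q.card : ℝ) * Z ^ (-η) := by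
    calc Z ^ (1 - τ - η) = Z ^ (1 - τ) * Z ^ (-η) := by
          rw [← Real.rpow_add hZ0]
          congr 1
      _ ≤ _ := by gcongr
  have hmono : Z ^ η ≤ Z ^ δ := Real.rpow_le_rpow_of_exponent_le hZ1 hηδ
  obtain ⟨G, hGQ, hG1, hG2⟩ := hmany ℕ Q
    (fun p k => α (φ k) * F (φ k) 0 ((p : ℝ) + σ k) + (P k).eval (p : ℝ)) hQne (by
      intro q hq hqZ h hh hhZ
      have h1 := hex d b α h q (∑ k, Polynomial.C ((h k : ℝ) / q) * P k)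
        hd hα hq (hqZ.trans hmono) hh (fun k => (hhZ k).trans hmono)
        (Polynomial.natDegree_sum_le_of_forall_le _ _ (fun k _ =>
          (Polynomial.natDegree_C_mul_le _ _).trans (hPD _))) hm01
      refine le_trans (le_of_eq ?_) (h1.trans (hp1.trans hQZ))
      congr 1
      refine sum_congr rfl fun p _ => ?_
      congr 1
      have e1 : ∑ k, (h k : ℝ) * ((α (φ k) * F (φ k) 0 ((p : ℝ) + σ k) + (P k).eval (p : ℝ)) / q) =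
          ∑ k, (h k : ℝ) * α (φ k) / q * F (φ k) 0 ((p : ℝ) + σ k) +
          ∑ k, (h k : ℝ) / q * (P k).eval (p : ℝ) := by
        rw [← sum_add_distrib]
        refine sum_congr rfl fun k _ => ?_
        ring
      rw [e1, Polynomial.eval_finsetSum]
      congr 1
      refine sum_congr rfl fun k _ => ?_
      rw [Polynomial.eval_mul, Polynomial.eval_C])
  refine ⟨G, ?_, ?_⟩
  · linarith
  · intro p hp
    obtain ⟨h1, h2, h3, h4⟩ := hQmem p (hGQ hp)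
    refine ⟨h1, h2, h3, h4, ?_⟩
    intro j m hm
    obtain ⟨q, hq, hq1, hq2⟩ := hG2 p hp j m hm
    exact ⟨q, hq, hq1.trans (Real.rpow_le_rpow_of_exponent_le hZ1 (by linarith)), hq2⟩

end Pool.Agent.N542.PT
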