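import Pool.Agent.N542.PT.Gen
import Pool.Agent.Y961.JR.Bounds
import Pool.Agent.Y961.JR.Disc
import Pool.Agent.W147.PS.Scale

set_option autoImplicit false
set_option maxHeartbeats 4000000

/-! # The criterion for families of vectors of real numbers, in terms of exponential sums -/

namespace Pool.Agent.N542.PT

open Finset Filter Topology
open Pool.Agent.H469R2.NK (e norm_e e_add)
open Pool.Agent.W147.PS (ff ff_compare ev_pow)
open Pool.Agent.Y961.JR (discJ ev_bounds)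

open scoped Classical

lemma ff_scaled (κ η M : ℝ) (hκ : 0 < κ) (h1 : η ≤ 1) (hM1 : 1 ≤ M)
    (hM : ∀ x : ℝ, M ^ η ≤ x → x ≤ M ^ 2 → η / 32 * ff M ≤ ff x ∧
      0 < Real.log (Real.log x) ∧ Real.log (Real.log x) ≤ 2 * Real.log (Real.log M)) :
    κ * (η / 32) * ff M ≤ κ * ff (M ^ η) := by
  have h5 := (hM (M ^ η) le_rfl (by
    calc M ^ η ≤ M ^ (2 : ℝ) := Real.rpow_le_rpow_of_exponent_le hM1 (by linarith)
      _ = M ^ 2 := by norm_num)).1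
  calc κ * (η / 32) * ff M = κ * (η / 32 * ff M) := by ring
    _ ≤ _ := mul_le_mul_of_nonneg_left h5 hκ.le

/-- small exponential sums imply good distribution -/
theorem wellDist_exp (d : ℕ) (hd : 1 ≤ d) : ∃ X₀ : ℝ, ∀ X : ℝ, X₀ ≤ X →
    ∀ (α : Type) (s : Finset α) (a : α → Fin d → ℝ),
    (∀ q : ℕ, 1 ≤ q → (q : ℝ) ≤ X ^ (2 / 5 : ℝ) → ∀ h : Fin d → ℤ, h ≠ 0 →
      (∀ j, |(h j : ℝ)| ≤ X ^ (10 * d)) →
      ‖∑ i ∈ s, e (∑ j, (h j : ℝ) * (a i j / q))‖ ≤ s.card * X ^ (-(20 * (d : ℝ) ^ 2))) →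
    WellDist (X ^ (2 / 5 : ℝ)) s (fun i j => ⌊a i j⌋) := by
  obtain ⟨X₂, h2⟩ := eventually_atTop.mp (ev_bounds d d hd le_rfl)
  refine ⟨X₂, ?_⟩
  intro X hX α s a hE
  obtain ⟨b1, b2⟩ := h2 X hX
  have hX0 : 0 < X := by linarith
  intro q hq hqX ρ
  obtain ⟨k1, k2, k3, k4⟩ := b2 q hq hqX s.card (Nat.cast_nonneg _)
  have hd' := discJ hd s a ⌈X ^ (3 * d)⌉₊ q k1 hq k2 (s.card * X ^ (-(20 * (d : ℝ) ^ 2)))
    (by positivity) (fun h hh hh2 => hE q hq hqX h hh (fun j => by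
      have h5 : ((h j).natAbs : ℝ) < ((⌈X ^ (3 * d)⌉₊ : ℕ) : ℝ) ^ 3 := by exact_mod_cast hh2 j
      have h6 : |(h j : ℝ)| = ((h j).natAbs : ℝ) := by
        rw [Nat.cast_natAbs]; push_cast; rfl
      rw [h6]
      exact h5.le.trans k3)) ρ
  refine hd'.trans (k4.trans ?_)
  have hd1 : (1 : ℝ) ≤ d := by exact_mod_cast hd
  have h7 : X ^ (-(2 * (d : ℝ))) ≤ (X ^ (2 / 5 : ℝ)) ^ (-((d : ℝ) + 1)) := by
    rw [← Real.rpow_mul hX0.le]
    apply Real.rpow_le_rpow_of_exponent_le (by linarith)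
    nlinarith
  have h8 : (0 : ℝ) ≤ s.card := Nat.cast_nonneg _
  have h9 : (0 : ℝ) ≤ X ^ (-(2 * (d : ℝ))) := Real.rpow_nonneg hX0.le _
  have h10 : (s.card : ℝ) * X ^ (-(2 * (d : ℝ))) ≤ s.card * (X ^ (2 / 5 : ℝ)) ^ (-((d : ℝ) + 1)) :=
    mul_le_mul_of_nonneg_left h7 h8
  have h11 : 0 ≤ (s.card : ℝ) * X ^ (-(2 * (d : ℝ))) := mul_nonneg h8 h9
  linarith

variable {ι : Type}

/-- the output of the criterion for the family `F` -/
def Crit (d : ℕ) (F : ι → MvPolynomial (Fin d) ℤ) : Prop :=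
  ∃ c : ℝ, 0 < c ∧ ∃ Z₀ : ℝ, ∀ Z : ℝ, Z₀ ≤ Z → ∀ (α : Type) (s : Finset α) (w : α → Fin d → ℤ),
      s.Nonempty → WellDist Z s w → ∃ a ∈ s, ∀ j, ∀ n : ℤ,
        |(n : ℝ) - (MvPolynomial.eval (w a) (F j) : ℤ)| ≤ c * ff Z →
        ∃ p : ℕ, p.Prime ∧ (p : ℝ) ≤ Z ^ (1 / 10 : ℝ) ∧ (p : ℤ) ∣ n

/-- all the integers near `F j (v)`, `j ∈ ι`, have a small prime factor -/
def Good {d : ℕ} (F : ι → MvPolynomial (Fin d) ℤ) (ρ y : ℝ) (v : Fin d → ℤ) : Prop :=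
  ∀ j, ∀ n : ℤ, |(n : ℝ) - (MvPolynomial.eval v (F j) : ℤ)| ≤ ρ →
    ∃ p : ℕ, p.Prime ∧ (p : ℝ) ≤ y ∧ (p : ℤ) ∣ n

theorem scaled (d : ℕ) (hd : 1 ≤ d) (F : ι → MvPolynomial (Fin d) ℤ) (hF : Crit d F) (η : ℝ)
    (h0 : 0 < η) (h1 : η ≤ 1) : ∃ κ : ℝ, 0 < κ ∧ ∀ᶠ M : ℝ in atTop,
    ∀ (α : Type) (s : Finset α) (a : α → Fin d → ℝ), s.Nonempty →
    (∀ q : ℕ, 1 ≤ q → (q : ℝ) ≤ M ^ η → ∀ h : Fin d → ℤ, h ≠ 0 → (∀ j, |(h j : ℝ)| ≤ M ^ η) →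
      ‖∑ i ∈ s, e (∑ j, (h j : ℝ) * (a i j / q))‖ ≤ s.card * M ^ (-η)) →
    ∃ i ∈ s, Good F (κ * ff M) (M ^ η) (fun j => ⌊a i j⌋) := by
  obtain ⟨κ, hκ, X₀, hc⟩ := hF
  obtain ⟨X₁, hw⟩ := wellDist_exp d hd
  have hr1 : (1 : ℝ) ≤ d := by exact_mod_cast hd
  set θ : ℝ := η / (20 * (d : ℝ) ^ 2) with hθ
  have hr2 : (1 : ℝ) ≤ (d : ℝ) ^ 2 := one_le_pow₀ hr1
  have hθ0 : 0 < θ := by positivity
  have hθη : θ ≤ η := div_le_self h0.le (by linarith)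
  have hθ1 : θ ≤ 1 := hθη.trans h1
  set θ' : ℝ := θ * (2 / 5) with hθ'
  have hθ'0 : 0 < θ' := by positivity
  have hθ'1 : θ' ≤ 1 := by linarith
  refine ⟨κ * (θ' / 32), by positivity, ?_⟩
  filter_upwards [ff_compare θ' hθ'0 hθ'1, (tendsto_rpow_atTop hθ'0).eventually_ge_atTop X₀,
    (tendsto_rpow_atTop hθ0).eventually_ge_atTop X₁,
    eventually_ge_atTop (1 : ℝ)] with M hM hMX hMX1 hM1
  intro α s a hs hE
  have hM0 : 0 < M := by linarith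
  have hmono : ∀ x y : ℝ, x ≤ y → M ^ x ≤ M ^ y := fun x y h =>
    Real.rpow_le_rpow_of_exponent_le hM1 h
  have hwd := hw (M ^ θ) hMX1 α s a (by
    intro q hq hqX h hh hhX
    refine (hE q hq (hqX.trans ?_) h hh (fun j => (hhX j).trans ?_)).trans (le_of_eq ?_)
    · rw [← Real.rpow_mul hM0.le]
      apply hmono
      linarith
    · rw [← Real.rpow_natCast, ← Real.rpow_mul hM0.le]
      apply hmono
      push_cast
      have e1 : θ * (10 * (d : ℝ)) * (2 * d) = η := by rw [hθ]; field_simp; norm_num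
      have e2 : 0 ≤ θ * (10 * (d : ℝ)) := by positivity
      nlinarith
    · rw [← Real.rpow_mul hM0.le]
      congr 2
      rw [hθ]
      field_simp)
  rw [← Real.rpow_mul hM0.le] at hwd
  obtain ⟨i, hi, hi2⟩ := hc (M ^ θ') hMX α s _ hs hwd
  refine ⟨i, hi, fun j n hn => ?_⟩
  obtain ⟨p, hp, hp1, hp2⟩ := hi2 j n (hn.trans (ff_scaled κ θ' M hκ hθ'1 hM1 hM.2))
  refine ⟨p, hp, hp1.trans ?_, hp2⟩
  rw [← Real.rpow_mul hM0.le]
  apply hmono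
  linarith

/-- many members -/
theorem many (d : ℕ) (hd : 1 ≤ d) (F : ι → MvPolynomial (Fin d) ℤ) (hF : Crit d F) (η : ℝ)
    (hη : 0 < η) (hη1 : η ≤ 1) :
    ∃ κ : ℝ, 0 < κ ∧ ∀ᶠ Z : ℝ in atTop, ∀ (α : Type) (s : Finset α) (x : α → Fin d → ℝ),
      s.Nonempty →
      (∀ q : ℕ, 1 ≤ q → (q : ℝ) ≤ Z ^ η → ∀ h : Fin d → ℤ, h ≠ 0 → (∀ j, |(h j : ℝ)| ≤ Z ^ η) →
        ‖∑ i ∈ s, e (∑ j, (h j : ℝ) * (x i j / q))‖ ≤ s.card * Z ^ (-η)) →
      ∃ G ⊆ s, (s.card : ℝ) * Z ^ (-η) ≤ (G.card : ℝ) ∧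
        ∀ i ∈ G, Good F (κ * ff Z) (Z ^ η) (fun j => ⌊x i j⌋) := by
  obtain ⟨κ, hκ, hcrit⟩ := scaled d hd F hF (η / 2) (by positivity) (by linarith)
  refine ⟨κ, hκ, ?_⟩
  filter_upwards [hcrit, eventually_ge_atTop (1 : ℝ), ev_pow (-η) (-(η / 2)) 4 (by linarith),
    ev_pow (-(η / 2)) 0 4 (by linarith)] with Z hcr hZ1 hp1 hp2
  rw [Real.rpow_zero] at hp2
  intro ι' s x hs hsum
  have hZ0 : 0 < Z := by linarith
  have hspos : (0 : ℝ) < s.card := by exact_mod_cast Finset.card_pos.mpr hs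
  have hmono : Z ^ (η / 2) ≤ Z ^ η := Real.rpow_le_rpow_of_exponent_le hZ1 (by linarith)
  set G : Finset ι' := s.filter (fun i => Good F (κ * ff Z) (Z ^ η) (fun j => ⌊x i j⌋)) with hG
  have hGs : G ⊆ s := filter_subset _ _
  have hkey : (s.card : ℝ) * Z ^ (-(η / 2)) / 2 ≤ G.card := by
    by_contra hlt
    rw [not_le] at hlt
    set t : Finset ι' := s \ G with ht
    have htcard : (t.card : ℝ) = s.card - G.card := by
      rw [ht, card_sdiff_of_subset hGs, Nat.cast_sub (card_le_card hGs)]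
    have htbig : 3 / 4 * (s.card : ℝ) ≤ t.card := by
      rw [htcard]
      nlinarith
    obtain ⟨i, hi, hi2⟩ := hcr ι' t x (by
        rw [← Finset.card_pos]
        have : (0 : ℝ) < t.card := by linarith
        exact_mod_cast this) (by
        intro q hq hqZ h hh hhZ
        have h1 := hsum q hq (hqZ.trans hmono) h hh (fun j => (hhZ j).trans hmono)
        have h2 : ∑ i ∈ t, e (∑ j, (h j : ℝ) * (x i j / q)) =
            ∑ i ∈ s, e (∑ j, (h j : ℝ) * (x i j / q)) -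
            ∑ i ∈ G, e (∑ j, (h j : ℝ) * (x i j / q)) := by
          rw [ht, ← sum_sdiff hGs]
          ring
        rw [h2]
        have h3 : ‖∑ i ∈ G, e (∑ j, (h j : ℝ) * (x i j / q))‖ ≤ G.card := by
          refine (norm_sum_le _ _).trans ?_
          simp only [norm_e, sum_const, nsmul_eq_mul, mul_one]
          exact le_rfl
        have h4 : 3 / 4 * (s.card : ℝ) * Z ^ (-(η / 2)) ≤ t.card * Z ^ (-(η / 2)) := by gcongr
        calc _ ≤ _ := norm_sub_le _ _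
          _ ≤ s.card * Z ^ (-η) + G.card := add_le_add h1 h3
          _ ≤ _ := by nlinarith)
    rw [ht] at hi
    have hi3 := Finset.mem_sdiff.mp hi
    apply hi3.2
    rw [hG, mem_filter]
    refine ⟨hi3.1, fun j n hn => ?_⟩
    obtain ⟨p, hp, hp1, hp2⟩ := hi2 j n hn
    exact ⟨p, hp, hp1.trans hmono, hp2⟩
  refine ⟨G, hGs, ?_, ?_⟩
  · nlinarith
  · intro i hi
    rw [hG, mem_filter] at hi
    exact hi.2

end Pool.Agent.N542.PT
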